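import Pool.Agent.H14.AD.CL0
import Pool.Agent.H45.AD.Stm2

/-!
# The class of a norm: `StmtCL`
-/

set_option autoImplicit false

namespace Pool.Agent.H14.AD.CL

open Polynomial Pool.Agent.H45.AD Pool.Agent.H45.PF

theorem t : StmtCL := by
  refine ⟨?_, ?_⟩
  · rintro Sp Z N hSp hN ⟨a, b, hab, ha, hb0, hb⟩
    exact part1 Sp Z N a b hSp hN hab ha hb0 hb
  · intro Sp a N₀ hSp _ hN
    obtain ⟨h1, h2, h3⟩ := part2 Sp a N₀ hSp hN
    exact ⟨h1.le, h2, by rw [h1]; exact odd_one, h3⟩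

end Pool.Agent.H14.AD.CL
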