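import Mathlib

/-!
# The class of a norm
-/

set_option autoImplicit false

namespace Pool.Agent.H14.AD.CL

open Polynomial

theorem prod_dvd {S : Finset ℕ} (hS : ∀ p ∈ S, p.Prime) {m : ℕ} (hm : m ≠ 0) :
    ∏ p ∈ S, p ^ (padicValNat p m) ∣ m := by
  classical
  have h1 : ∏ p ∈ S, p ^ (padicValNat p m) =
      ∏ p ∈ S.filter (fun p => p ∈ m.primeFactors), p ^ (padicValNat p m) := by
    symm
    apply Finset.prod_filter_of_ne
    intro p hp hne
    rw [Nat.mem_primeFactors]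
    refine ⟨hS p hp, ?_, hm⟩
    by_contra hcon
    apply hne
    rw [padicValNat.eq_zero_of_not_dvd hcon, pow_zero]
  have h2 : m = ∏ p ∈ m.primeFactors, p ^ (padicValNat p m) := by
    conv_lhs => rw [← Nat.prod_factorization_pow_eq_self hm]
    rw [Finsupp.prod, Nat.support_factorization]
    refine Finset.prod_congr rfl fun p hp => ?_
    rw [Nat.factorization_def m (Nat.prime_of_mem_primeFactors hp)]
  rw [h1]
  conv_rhs => rw [h2]
  apply Finset.prod_dvd_prod_of_subset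
  intro p hp
  exact (Finset.mem_filter.1 hp).2

theorem prod_eq {S : Finset ℕ} {b : ℕ} (hb : b ≠ 0) (h : ∀ p : ℕ, p.Prime → p ∣ b → p ∈ S)
    (hS : ∀ p ∈ S, p.Prime) : ∏ p ∈ S, p ^ (padicValNat p b) = b := by
  classical
  have h2 : b = ∏ p ∈ b.primeFactors, p ^ (padicValNat p b) := by
    conv_lhs => rw [← Nat.prod_factorization_pow_eq_self hb]
    rw [Finsupp.prod, Nat.support_factorization]
    refine Finset.prod_congr rfl fun p hp => ?_
    rw [Nat.factorization_def b (Nat.prime_of_mem_primeFactors hp)]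
  conv_rhs => rw [h2]
  symm
  apply Finset.prod_subset
  · intro p hp
    exact h p (Nat.prime_of_mem_primeFactors hp) (Nat.dvd_of_mem_primeFactors hp)
  · intro p hp hp2
    have h3 : ¬ p ∣ b := fun hd => hp2 (Nat.mem_primeFactors.2 ⟨hS p hp, hd, hb⟩)
    rw [padicValNat.eq_zero_of_not_dvd h3, pow_zero]

theorem part1 (Sp : Finset ℕ) (Z : ℝ) (N a b : ℤ) (hSp : ∀ p ∈ Sp, p.Prime) (hN : N ≠ 0)
    (hab : N = a * b) (ha : |(a : ℝ)| ≤ Z) (hb0 : 0 < b)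
    (hb : ∀ p : ℕ, p.Prime → (p : ℤ) ∣ b → p ∈ Sp) :
    ∃ n : ℤ, n ≠ 0 ∧ |(n : ℝ)| ≤ Z ∧ N = n * ∏ p ∈ Sp, (p : ℤ) ^ (padicValInt p N) ∧
      ∏ p ∈ Sp, (p : ℝ) ^ (padicValInt p N) ≤ |(N : ℝ)| := by
  have hNn : N.natAbs ≠ 0 := Int.natAbs_ne_zero.2 hN
  have ha0 : a ≠ 0 := by
    rintro rfl
    rw [zero_mul] at hab
    exact hN hab
  have han : a.natAbs ≠ 0 := Int.natAbs_ne_zero.2 ha0
  have hbn : b.natAbs ≠ 0 := Int.natAbs_ne_zero.2 hb0.ne'
  obtain ⟨P, hP⟩ : ∃ P : ℕ, P = ∏ p ∈ Sp, p ^ (padicValNat p N.natAbs) := ⟨_, rfl⟩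
  have hPd : P ∣ N.natAbs := by rw [hP]; exact prod_dvd hSp hNn
  have hPz : (P : ℤ) = ∏ p ∈ Sp, (p : ℤ) ^ (padicValInt p N) := by
    rw [hP]
    push_cast
    rfl
  have hPr : (P : ℝ) = ∏ p ∈ Sp, (p : ℝ) ^ (padicValInt p N) := by
    rw [hP]
    push_cast
    rfl
  have hP0 : P ≠ 0 := by
    rintro h
    rw [h, zero_dvd_iff] at hPd
    exact hNn hPd
  have hPdz : (P : ℤ) ∣ N := Int.natCast_dvd.2 hPd
  obtain ⟨n, hn⟩ := hPdz
  have hn0 : n ≠ 0 := by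
    rintro rfl
    rw [mul_zero] at hn
    exact hN hn
  -- `P = Q * b`
  have hPQ : P = (∏ p ∈ Sp, p ^ (padicValNat p a.natAbs)) * b.natAbs := by
    conv_rhs => rw [← prod_eq hbn (S := Sp) (fun p hp hd => hb p hp (Int.natCast_dvd.2 hd)) hSp]
    rw [← Finset.prod_mul_distrib, hP]
    refine Finset.prod_congr rfl fun p hp => ?_
    have : Fact p.Prime := ⟨hSp p hp⟩
    rw [hab, Int.natAbs_mul, padicValNat.mul han hbn, pow_add]
  have hnle : n.natAbs ≤ a.natAbs := by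
    have h1 : P * n.natAbs = a.natAbs * b.natAbs := by
      have := congrArg Int.natAbs hn
      rw [hab, Int.natAbs_mul, Int.natAbs_mul, Int.natAbs_natCast] at this
      exact this.symm
    rw [hPQ] at h1
    have h2 : (∏ p ∈ Sp, p ^ (padicValNat p a.natAbs)) * n.natAbs = a.natAbs := by
      have h3 : b.natAbs * ((∏ p ∈ Sp, p ^ (padicValNat p a.natAbs)) * n.natAbs) =
          b.natAbs * a.natAbs := by linarith
      exact Nat.eq_of_mul_eq_mul_left (Nat.pos_of_ne_zero hbn) h3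
    have h3 : 1 ≤ ∏ p ∈ Sp, p ^ (padicValNat p a.natAbs) :=
      Finset.prod_pos fun p hp => pow_pos (hSp p hp).pos _
    calc n.natAbs = 1 * n.natAbs := (one_mul _).symm
      _ ≤ (∏ p ∈ Sp, p ^ (padicValNat p a.natAbs)) * n.natAbs := Nat.mul_le_mul_right _ h3
      _ = a.natAbs := h2
  refine ⟨n, hn0, ?_, ?_, ?_⟩
  · refine le_trans ?_ ha
    rw [← Int.cast_abs, ← Int.cast_abs, Int.abs_eq_natAbs, Int.abs_eq_natAbs]
    exact_mod_cast hnle
  · rw [← hPz, mul_comm]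
    exact hn
  · rw [← hPr, ← Int.cast_abs, Int.abs_eq_natAbs]
    exact_mod_cast Nat.le_of_dvd (Nat.pos_of_ne_zero hNn) hPd

theorem part2 (Sp : Finset ℕ) (a : ℕ → ℕ) (N₀ : ℤ) (hSp : ∀ p ∈ Sp, p.Prime)
    (hN : ∀ p ∈ Sp, ¬ (p : ℤ) ∣ N₀) :
    (C N₀ + C (∏ p ∈ Sp, (p : ℤ) ^ a p) * X : ℤ[X]).natDegree = 1 ∧
    Irreducible ((C N₀ + C (∏ p ∈ Sp, (p : ℤ) ^ a p) * X : ℤ[X]).map (Int.castRingHom ℚ)) ∧
    (C N₀ + C (∏ p ∈ Sp, (p : ℤ) ^ a p) * X : ℤ[X]).IsPrimitive := by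
  obtain ⟨M, hM⟩ : ∃ M : ℤ, M = ∏ p ∈ Sp, (p : ℤ) ^ a p := ⟨_, rfl⟩
  rw [← hM]
  have hM0 : M ≠ 0 := by
    rw [hM]
    exact Finset.prod_ne_zero_iff.2 fun p hp => pow_ne_zero _ (by exact_mod_cast (hSp p hp).ne_zero)
  have hcop : IsCoprime N₀ M := by
    rw [hM]
    apply IsCoprime.prod_right
    intro p hp
    apply IsCoprime.pow_right
    exact (((Nat.prime_iff_prime_int.1 (hSp p hp)).coprime_iff_not_dvd).2 (hN p hp)).symm
  have he : (C N₀ + C M * X : ℤ[X]) = C M * X + C N₀ := add_comm _ _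
  rw [he]
  refine ⟨natDegree_linear hM0, ?_, ?_⟩
  · apply irreducible_of_degree_eq_one
    rw [Polynomial.map_add, Polynomial.map_mul, map_C, map_C, map_X]
    apply degree_linear
    simpa using hM0
  · rw [isPrimitive_iff_isUnit_of_C_dvd]
    intro r hr
    rw [C_dvd_iff_dvd_coeff] at hr
    have h0 := hr 0
    have h1 := hr 1
    simp only [coeff_add, coeff_C_mul, coeff_X_zero, mul_zero, coeff_C_zero, zero_add] at h0
    rw [coeff_add, coeff_C_mul, coeff_X_one, mul_one, coeff_C_of_ne_zero one_ne_zero, add_zero] at h1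
    exact hcop.isUnit_of_dvd' h0 h1

end Pool.Agent.H14.AD.CL
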