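import Mathlib

/-!
# Packing on a circle
-/

set_option autoImplicit false

namespace Pool.Agent.H14.AD

/-- Points on a circle of length `L` with distances at least `B`. -/
theorem circle {ι : Type} (T : Finset ι) (f : ι → ℝ) (L B : ℝ) (hL : 0 ≤ L) (hB : 0 < B)
    (h : ∀ i ∈ T, ∀ j ∈ T, ∀ m : ℤ, (i ≠ j ∨ m ≠ 0) → B ≤ |f i - f j + L * m|) :
    (T.card : ℝ) * B ≤ L := by
  classical
  rcases T.eq_empty_or_nonempty with hT | ⟨i0, hi0⟩
  · subst hT
    simpa using hL
  obtain ⟨C, hC⟩ : ∃ C : ℝ, ∀ i ∈ T, |f i| ≤ C := by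
    refine ⟨∑ i ∈ T, |f i|, fun i hi => ?_⟩
    exact Finset.single_le_sum (f := fun i => |f i|) (fun j _ => abs_nonneg _) hi
  have key : ∀ M : ℕ, (T.card : ℝ) * B * M ≤ L * M + (2 * C + 2 * B) := by
    intro M
    · have hC0 : 0 ≤ C := (abs_nonneg _).trans (hC i0 hi0)
      have hinj : Set.InjOn (fun z : ι × ℕ => ⌊(f z.1 + L * z.2) / B⌋)
          (T ×ˢ Finset.range M : Finset (ι × ℕ)) := by
        rintro ⟨i, m⟩ hi ⟨j, n⟩ hj hij
        simp only [Finset.coe_product, Set.mem_prod, Finset.mem_coe] at hi hj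
        by_contra hne
        have h1 : i ≠ j ∨ ((m : ℤ) - n) ≠ 0 := by
          by_contra hcon
          push Not at hcon
          apply hne
          rw [Prod.mk.injEq]
          exact ⟨hcon.1, by omega⟩
        have h2 := h i hi.1 j hj.1 _ h1
        have h3 := Int.abs_sub_lt_one_of_floor_eq_floor hij
        simp only at h3
        rw [← sub_div, abs_div, abs_of_pos hB, div_lt_one hB] at h3
        have h4 : f i + L * (m : ℝ) - (f j + L * (n : ℝ)) = f i - f j + L * (((m : ℤ) - n : ℤ) : ℝ) := by
          push_cast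
          ring
        rw [h4] at h3
        linarith
      have hsub : Finset.image (fun z : ι × ℕ => ⌊(f z.1 + L * z.2) / B⌋) (T ×ˢ Finset.range M) ⊆
          Finset.Icc ⌊-C / B⌋ ⌊(C + L * M) / B⌋ := by
        intro z hz
        rw [Finset.mem_image] at hz
        obtain ⟨⟨i, m⟩, hi, rfl⟩ := hz
        rw [Finset.mem_product] at hi
        have h1 := abs_le.1 (hC i hi.1)
        have h2 : (m : ℝ) ≤ M := by
          have := Finset.mem_range.1 hi.2
          exact_mod_cast this.le
        have h3 : L * (m : ℝ) ≤ L * M := mul_le_mul_of_nonneg_left h2 hL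
        have h4 : 0 ≤ L * (m : ℝ) := by positivity
        rw [Finset.mem_Icc]
        constructor
        · apply Int.floor_le_floor
          apply div_le_div_of_nonneg_right _ hB.le
          simp only
          linarith
        · apply Int.floor_le_floor
          apply div_le_div_of_nonneg_right _ hB.le
          simp only
          linarith
      have hcard := Finset.card_le_card hsub
      rw [Finset.card_image_of_injOn hinj, Finset.card_product, Finset.card_range,
        Int.card_Icc] at hcard
      have h5 : ((T.card * M : ℕ) : ℤ) ≤ ⌊(C + L * M) / B⌋ + 1 - ⌊-C / B⌋ := by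
        have h6 : ⌊-C / B⌋ ≤ ⌊(C + L * M) / B⌋ := by
          apply Int.floor_le_floor
          apply div_le_div_of_nonneg_right _ hB.le
          have : 0 ≤ L * (M : ℝ) := by positivity
          linarith
        have h7 : ((⌊(C + L * M) / B⌋ + 1 - ⌊-C / B⌋).toNat : ℤ) =
            ⌊(C + L * M) / B⌋ + 1 - ⌊-C / B⌋ := Int.toNat_of_nonneg (by omega)
        rw [← h7]
        exact_mod_cast hcard
      have h6 : ((T.card * M : ℕ) : ℝ) ≤ (C + L * M) / B + 1 - (-C / B - 1) := by
        have h7 : (((T.card * M : ℕ) : ℤ) : ℝ) ≤ ((⌊(C + L * M) / B⌋ + 1 - ⌊-C / B⌋ : ℤ) : ℝ) := by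
          exact_mod_cast h5
        push_cast at h7 ⊢
        have h8 := Int.floor_le ((C + L * M) / B)
        have h9 := Int.sub_one_lt_floor (-C / B)
        linarith
      have h7 : ((T.card * M : ℕ) : ℝ) * B ≤ ((C + L * M) / B + 1 - (-C / B - 1)) * B :=
        mul_le_mul_of_nonneg_right h6 hB.le
      have h8 : ((C + L * M) / B + 1 - (-C / B - 1)) * B = L * M + (2 * C + 2 * B) := by
        field_simp
        ring
      rw [h8] at h7
      push_cast at h7
      linarith
  by_contra hcon
  push Not at hcon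
  obtain ⟨M, hM⟩ := exists_nat_gt ((2 * C + 2 * B) / ((T.card : ℝ) * B - L))
  rw [div_lt_iff₀ (by linarith)] at hM
  have := key M
  nlinarith

end Pool.Agent.H14.AD
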