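import Pool.Agent.H45.Lib.Ts3997aac3.Q263.CN.Disc

/-!
# Split primes of quadratic fields, products of prime ideals
-/

set_option autoImplicit false

namespace Pool.Agent.H14.AD

open NumberField Module Q263.CN

section

variable {K : Type} [Field K] [NumberField K]

/-- `s + r` is not divisible by `p`. -/
theorem not_dvd {d : ℕ} (hd : 1 < d) (hs : Squarefree d) (h2 : finrank ℚ K = 2) (s : 𝓞 K)
    (hx : s ^ 2 = (d : 𝓞 K)) (p : ℕ) (r : ℤ) (h : ¬ (p : ℤ) ∣ 2 * r) :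
    ¬ (p : 𝓞 K) ∣ s + (r : 𝓞 K) := by
  rintro ⟨z, hz⟩
  have hx' : ((s : 𝓞 K) : K) ^ 2 = ((d : ℤ) : K) := by
    have := congrArg (fun t : 𝓞 K => (t : K)) hx
    simpa using this
  have hsd : Squarefree (d : ℤ) := Int.squarefree_natCast.2 hs
  have hd1 : (d : ℤ) ≠ 1 := by omega
  obtain ⟨b, hb0, hb1⟩ := exists_basis hd1 hsd h2 (s : K) hx'
  have h3 := trZ hx' b hb0 hb1 (s + (r : 𝓞 K)) r 1 (by push_cast; simp; ring)
  have h4 : Algebra.trace ℤ (𝓞 K) ((p : 𝓞 K) * z) = p * Algebra.trace ℤ (𝓞 K) z := by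
    have : (p : 𝓞 K) * z = (p : ℤ) • z := by
      rw [zsmul_eq_mul]
      push_cast
      ring
    rw [this, map_zsmul, smul_eq_mul]
  apply h
  refine ⟨Algebra.trace ℤ (𝓞 K) z, ?_⟩
  rw [← h4, ← hz]
  have : ((2 * r : ℤ) : ℚ) = ((Algebra.trace ℤ (𝓞 K) (s + (r : 𝓞 K)) : ℤ) : ℚ) := by
    rw [h3]
    push_cast
    ring
  exact_mod_cast this

/-- The two prime ideals above an odd split prime. -/
theorem exists_pair {d : ℕ} (hd : 1 < d) (hs : Squarefree d) (h2 : finrank ℚ K = 2) (s : 𝓞 K)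
    (hx : s ^ 2 = (d : 𝓞 K)) {p : ℕ} (hp : p.Prime) (hp2 : p ≠ 2) (hpd : ¬ p ∣ d)
    (hsq : IsSquare (d : ZMod p)) :
    ∃ P Q : Ideal (𝓞 K), P.IsPrime ∧ Q.IsPrime ∧ P ≠ Q ∧
      P * Q = Ideal.span {(p : 𝓞 K)} ∧ Ideal.absNorm P = p ∧ Ideal.absNorm Q = p := by
  have : Fact p.Prime := ⟨hp⟩
  obtain ⟨r0, hr0⟩ := hsq
  obtain ⟨r, rfl⟩ := ZMod.intCast_surjective r0
  have h3 : (p : ℤ) ∣ (d : ℤ) - r ^ 2 := by
    rw [← ZMod.intCast_zmod_eq_zero_iff_dvd]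
    push_cast
    rw [hr0]
    ring
  obtain ⟨c, hc⟩ := h3
  have hpr : ¬ (p : ℤ) ∣ r := by
    rintro ⟨k, rfl⟩
    apply hpd
    have : (p : ℤ) ∣ (d : ℤ) := ⟨c + p * k ^ 2, by linear_combination hc⟩
    exact_mod_cast this
  have hp2r : ¬ (p : ℤ) ∣ 2 * r := by
    intro h
    rcases (Nat.prime_iff_prime_int.1 hp).dvd_or_dvd h with h4 | h4
    · have h5 : p ∣ 2 := by exact_mod_cast h4
      rcases (Nat.dvd_prime Nat.prime_two).1 h5 with h6 | h6
      · exact hp.one_lt.ne' h6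
      · exact hp2 h6
    · exact hpr h4
  have hcop : IsCoprime (p : ℤ) (2 * r) :=
    ((Nat.prime_iff_prime_int.1 hp).coprime_iff_not_dvd).2 hp2r
  obtain ⟨u, v, huv⟩ := hcop
  have huv' : (u : 𝓞 K) * p + v * (2 * r) = 1 := by
    have := congrArg (fun t : ℤ => (t : 𝓞 K)) huv
    push_cast at this
    exact this
  have hcr : (s - (r : 𝓞 K)) * (s + (r : 𝓞 K)) = (p : 𝓞 K) * c := by
    have h4 : ((d : ℤ) - r ^ 2 : 𝓞 K) = (p : 𝓞 K) * c := by
      have := congrArg (fun t : ℤ => (t : 𝓞 K)) hc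
      push_cast at this
      push_cast
      exact this
    push_cast at h4
    linear_combination hx + h4
  obtain ⟨P, hP⟩ : ∃ P : Ideal (𝓞 K), P = Ideal.span {(p : 𝓞 K), s - (r : 𝓞 K)} := ⟨_, rfl⟩
  obtain ⟨Q, hQ⟩ : ∃ Q : Ideal (𝓞 K), Q = Ideal.span {(p : 𝓞 K), s + (r : 𝓞 K)} := ⟨_, rfl⟩
  have hpP : (p : 𝓞 K) ∈ P := by rw [hP]; exact Ideal.subset_span (by simp)
  have hpQ : (p : 𝓞 K) ∈ Q := by rw [hQ]; exact Ideal.subset_span (by simp)
  have hsP : s - (r : 𝓞 K) ∈ P := by rw [hP]; exact Ideal.subset_span (by simp)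
  have hsQ : s + (r : 𝓞 K) ∈ Q := by rw [hQ]; exact Ideal.subset_span (by simp)
  have hPQ : P * Q = Ideal.span {(p : 𝓞 K)} := by
    apply le_antisymm
    · rw [hP, hQ, Ideal.span_pair_mul_span_pair, Ideal.span_le]
      intro z hz
      simp only [Set.mem_insert_iff, Set.mem_singleton_iff] at hz
      rw [SetLike.mem_coe, Ideal.mem_span_singleton]
      rcases hz with rfl | rfl | rfl | rfl
      · exact Dvd.intro _ rfl
      · exact Dvd.intro _ rfl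
      · exact Dvd.intro_left _ rfl
      · rw [hcr]
        exact Dvd.intro _ rfl
    · rw [Ideal.span_le, Set.singleton_subset_iff, SetLike.mem_coe]
      have h4 : (p : 𝓞 K) = u * (p * p) + v * (p * (s + r) - (s - r) * p) := by
        linear_combination -(p : 𝓞 K) * huv'
      rw [h4]
      exact Ideal.add_mem _ (Ideal.mul_mem_left _ _ (Ideal.mul_mem_mul hpP hpQ))
        (Ideal.mul_mem_left _ _ (Ideal.sub_mem _ (Ideal.mul_mem_mul hpP hsQ)
          (Ideal.mul_mem_mul hsP hpQ)))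
  have hnp : Ideal.absNorm (Ideal.span {(p : 𝓞 K)}) = p ^ 2 := by
    rw [Ideal.absNorm_span_singleton]
    have h4 : (p : 𝓞 K) = algebraMap ℤ (𝓞 K) (p : ℤ) := by simp
    rw [h4, Algebra.norm_algebraMap, RingOfIntegers.rank, h2]
    rw [Int.natAbs_pow, Int.natAbs_natCast]
  have hn : Ideal.absNorm P * Ideal.absNorm Q = p ^ 2 := by
    rw [← map_mul, hPQ, hnp]
  have hP1 : Ideal.absNorm P ≠ 1 := by
    rw [Ne, Ideal.absNorm_eq_one_iff]
    intro h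
    rw [h, Ideal.top_mul] at hPQ
    rw [hPQ, Ideal.mem_span_singleton] at hsQ
    exact not_dvd hd hs h2 s hx p r hp2r hsQ
  have hQ1 : Ideal.absNorm Q ≠ 1 := by
    rw [Ne, Ideal.absNorm_eq_one_iff]
    intro h
    rw [h, Ideal.mul_top] at hPQ
    rw [hPQ, Ideal.mem_span_singleton] at hsP
    refine not_dvd hd hs h2 s hx p (-r) (by rwa [mul_neg, dvd_neg]) ?_
    push_cast
    rwa [← sub_eq_add_neg]
  obtain ⟨hP2, hQ2⟩ := (hp.mul_eq_prime_sq_iff hP1 hQ1).1 hn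
  have hPp : P.IsPrime := Ideal.isPrime_of_irreducible_absNorm (by rw [hP2]; exact hp)
  have hQp : Q.IsPrime := Ideal.isPrime_of_irreducible_absNorm (by rw [hQ2]; exact hp)
  refine ⟨P, Q, hPp, hQp, ?_, hPQ, hP2, hQ2⟩
  intro h
  apply hPp.ne_top
  rw [Ideal.eq_top_iff_one]
  rw [← h] at hsQ
  have h4 : (1 : 𝓞 K) = u * p + v * ((s + r) - (s - r)) := by
    linear_combination -huv'
  rw [h4]
  exact Ideal.add_mem _ (Ideal.mul_mem_left _ _ hpP)
    (Ideal.mul_mem_left _ _ (Ideal.sub_mem _ hsQ hsP))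

/-- Pairs of prime ideals. -/
structure Pair (P Q : Ideal (𝓞 K)) (p : ℕ) : Prop where
  pp : p.Prime
  P1 : P.IsPrime
  Q1 : Q.IsPrime
  ne : P ≠ Q
  mul : P * Q = Ideal.span {(p : 𝓞 K)}
  nP : Ideal.absNorm P = p
  nQ : Ideal.absNorm Q = p

theorem Pair.symm {P Q : Ideal (𝓞 K)} {p : ℕ} (h : Pair P Q p) : Pair Q P p :=
  ⟨h.pp, h.Q1, h.P1, h.ne.symm, by rw [mul_comm]; exact h.mul, h.nQ, h.nP⟩

theorem Pair.memP {P Q : Ideal (𝓞 K)} {p : ℕ} (h : Pair P Q p) : (p : 𝓞 K) ∈ P := by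
  have h1 : P * Q ≤ P := Ideal.mul_le_left
  rw [h.mul] at h1
  exact h1 (Ideal.mem_span_singleton_self _)

theorem Pair.memQ {P Q : Ideal (𝓞 K)} {p : ℕ} (h : Pair P Q p) : (p : 𝓞 K) ∈ Q := h.symm.memP

theorem Pair.P0 {P Q : Ideal (𝓞 K)} {p : ℕ} (h : Pair P Q p) : P ≠ ⊥ := by
  rintro rfl
  have := h.memP
  rw [Ideal.mem_bot] at this
  exact h.pp.ne_zero (by exact_mod_cast this)

theorem Pair.dvd {P Q : Ideal (𝓞 K)} {p : ℕ} (h : Pair P Q p) {n : ℤ} (hn : (n : 𝓞 K) ∈ P) :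
    (p : ℤ) ∣ n := by
  by_contra hcon
  have hcop : IsCoprime (p : ℤ) n :=
    ((Nat.prime_iff_prime_int.1 h.pp).coprime_iff_not_dvd).2 hcon
  obtain ⟨u, v, huv⟩ := hcop
  apply h.P1.ne_top
  rw [Ideal.eq_top_iff_one]
  have huv' : (u : 𝓞 K) * p + v * n = 1 := by
    have := congrArg (fun t : ℤ => (t : 𝓞 K)) huv
    push_cast at this
    exact this
  rw [← huv']
  exact Ideal.add_mem _ (Ideal.mul_mem_left _ _ h.memP) (Ideal.mul_mem_left _ _ hn)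

theorem Pair.not_le {P Q P' Q' : Ideal (𝓞 K)} {p q : ℕ} (h : Pair P Q p) (h' : Pair P' Q' q)
    (hpq : p ≠ q) : ¬ P ≤ P' := by
  intro hle
  have h1 : ((p : ℤ) : 𝓞 K) ∈ P' := by
    have := hle h.memP
    simpa using this
  have h2 := h'.dvd h1
  have h3 : q ∣ p := by exact_mod_cast h2
  exact hpq ((Nat.prime_dvd_prime_iff_eq h'.pp h.pp).1 h3).symm

theorem Pair.not_le' {P Q : Ideal (𝓞 K)} {p : ℕ} (h : Pair P Q p) : ¬ P ≤ Q := by
  intro hle
  have hm : P.IsMaximal := h.P1.isMaximal h.P0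
  exact h.ne (hm.eq_of_le h.Q1.ne_top hle)

/-- The reduced product. -/
noncomputable def JJ (S : Finset ℕ) (P Q : ℕ → Ideal (𝓞 K)) (v w : ℕ → ℕ) : Ideal (𝓞 K) :=
  ∏ p ∈ S, (P p ^ (v p - w p) * Q p ^ (w p - v p))

theorem JJ_symm (S : Finset ℕ) (P Q : ℕ → Ideal (𝓞 K)) (v w : ℕ → ℕ) :
    JJ S P Q v w = JJ S Q P w v := by
  unfold JJ
  refine Finset.prod_congr rfl fun p _ => mul_comm _ _

theorem JJ_irr_aux {S : Finset ℕ} {P Q : ℕ → Ideal (𝓞 K)} (h : ∀ p ∈ S, Pair (P p) (Q p) p)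
    (v w : ℕ → ℕ) {p : ℕ} (hp : p ∈ S) (hvw : w p < v p) (n : ℤ) :
    JJ S P Q v w ≠ Ideal.span {(n : 𝓞 K)} := by
  intro he
  have h1 : JJ S P Q v w ≤ P p := by
    unfold JJ
    have := (h p hp).P1
    rw [Ideal.IsPrime.prod_le (h p hp).P1]
    refine ⟨p, hp, ?_⟩
    refine Ideal.mul_le_left.trans ?_
    exact Ideal.pow_le_self (by omega)
  rw [he, Ideal.span_singleton_le_iff_mem] at h1
  have h2 := (h p hp).dvd h1
  obtain ⟨c, hc⟩ := h2
  have h3 : JJ S P Q v w ≤ Q p := by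
    rw [he, Ideal.span_singleton_le_iff_mem, hc]
    push_cast
    exact Ideal.mul_mem_right _ _ (h p hp).memQ
  unfold JJ at h3
  rw [Ideal.IsPrime.prod_le (h p hp).Q1] at h3
  obtain ⟨q, hq, h4⟩ := h3
  rcases (Ideal.IsPrime.mul_le (h p hp).Q1).1 h4 with h5 | h5
  · by_cases he0 : v q - w q = 0
    · rw [he0, pow_zero, Ideal.one_eq_top, top_le_iff] at h5
      exact (h p hp).Q1.ne_top h5
    · have h6 := (Ideal.IsPrime.pow_le_iff (hP := (h p hp).Q1) he0).1 h5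
      by_cases hqp : q = p
      · subst hqp
        exact (h q hq).not_le' h6
      · exact (h q hq).not_le (h p hp).symm hqp h6
  · by_cases he0 : w q - v q = 0
    · rw [he0, pow_zero, Ideal.one_eq_top, top_le_iff] at h5
      exact (h p hp).Q1.ne_top h5
    · have h6 := (Ideal.IsPrime.pow_le_iff (hP := (h p hp).Q1) he0).1 h5
      by_cases hqp : q = p
      · subst hqp
        omega
      · exact (h q hq).symm.not_le (h p hp).symm hqp h6

theorem JJ_irr {S : Finset ℕ} {P Q : ℕ → Ideal (𝓞 K)} (h : ∀ p ∈ S, Pair (P p) (Q p) p)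
    (v w : ℕ → ℕ) {p : ℕ} (hp : p ∈ S) (hvw : v p ≠ w p) (n : ℤ) :
    JJ S P Q v w ≠ Ideal.span {(n : 𝓞 K)} := by
  rcases lt_or_gt_of_ne hvw with h1 | h1
  · rw [JJ_symm]
    exact JJ_irr_aux (fun q hq => (h q hq).symm) w v hp h1 n
  · exact JJ_irr_aux h v w hp h1 n

theorem JJ_norm {S : Finset ℕ} {P Q : ℕ → Ideal (𝓞 K)} (h : ∀ p ∈ S, Pair (P p) (Q p) p)
    (v w : ℕ → ℕ) : Ideal.absNorm (JJ S P Q v w) = ∏ p ∈ S, p ^ ((v p - w p) + (w p - v p)) := by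
  unfold JJ
  rw [map_prod]
  refine Finset.prod_congr rfl fun p hp => ?_
  rw [map_mul, map_pow, map_pow, (h p hp).nP, (h p hp).nQ, pow_add]

/-- Division of generators. -/
theorem JJ_gen {S : Finset ℕ} {P Q : ℕ → Ideal (𝓞 K)} (h : ∀ p ∈ S, Pair (P p) (Q p) p)
    (v w : ℕ → ℕ) (I : Ideal (𝓞 K)) (b c : 𝓞 K) (hc0 : c ≠ 0)
    (hb : (∏ p ∈ S, P p ^ v p) * I = Ideal.span {b})
    (hc : (∏ p ∈ S, P p ^ w p) * I = Ideal.span {c}) :
    ∃ a : 𝓞 K, c * a = b * ((∏ p ∈ S, p ^ (w p - v p) : ℕ) : 𝓞 K) ∧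
      Ideal.span {a} = JJ S P Q v w := by
  have h1 : Ideal.span {b * ((∏ p ∈ S, p ^ (w p - v p) : ℕ) : 𝓞 K)} =
      Ideal.span {c} * JJ S P Q v w := by
    rw [← Ideal.span_singleton_mul_span_singleton, ← hb, ← hc]
    have h2 : Ideal.span {((∏ p ∈ S, p ^ (w p - v p) : ℕ) : 𝓞 K)} =
        ∏ p ∈ S, (P p ^ (w p - v p) * Q p ^ (w p - v p)) := by
      push_cast
      rw [← Ideal.prod_span_singleton]
      refine Finset.prod_congr rfl fun p hp => ?_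
      rw [← Ideal.span_singleton_pow, ← (h p hp).mul, mul_pow]
    rw [h2]
    unfold JJ
    calc (∏ p ∈ S, P p ^ v p) * I * ∏ p ∈ S, (P p ^ (w p - v p) * Q p ^ (w p - v p))
        = I * ((∏ p ∈ S, P p ^ v p) * ∏ p ∈ S, (P p ^ (w p - v p) * Q p ^ (w p - v p))) := by
          ring
      _ = I * ((∏ p ∈ S, P p ^ w p) * ∏ p ∈ S, (P p ^ (v p - w p) * Q p ^ (w p - v p))) := by
          congr 1
          rw [← Finset.prod_mul_distrib, ← Finset.prod_mul_distrib]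
          refine Finset.prod_congr rfl fun p _ => ?_
          rw [← mul_assoc, ← mul_assoc, ← pow_add, ← pow_add]
          congr 2
          omega
      _ = (∏ p ∈ S, P p ^ w p) * I * ∏ p ∈ S, (P p ^ (v p - w p) * Q p ^ (w p - v p)) := by
          ring
  have h2 : c ∣ b * ((∏ p ∈ S, p ^ (w p - v p) : ℕ) : 𝓞 K) := by
    rw [← Ideal.span_singleton_le_span_singleton, h1]
    exact Ideal.mul_le_left
  obtain ⟨a, ha⟩ := h2
  refine ⟨a, ha.symm, ?_⟩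
  rw [ha, ← Ideal.span_singleton_mul_span_singleton] at h1
  have hc1 : Ideal.span {c} ≠ ⊥ := by
    rw [Ne, Ideal.span_singleton_eq_bot]
    exact hc0
  exact mul_left_cancel₀ hc1 h1

end

end Pool.Agent.H14.AD
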