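import Pool.Agent.H45.AD.Stm2

/-!
# The covering: `StmtBL` implies `StmtKB`
-/

set_option autoImplicit false

namespace Pool.Agent.H14.AD.KB

open Polynomial Pool.Agent.H45.AD Filter Topology

theorem exp_exists (p : ℕ) (hp : 2 ≤ p) (Q : ℝ) (hQ : 1 ≤ Q) :
    ∃ a : ℕ, 1 ≤ a ∧ Q ≤ (p : ℝ) ^ a ∧ (p : ℝ) ^ a ≤ Q * p := by
  classical
  have hp1 : (1 : ℝ) < p := by exact_mod_cast (by omega : 1 < p)
  have hex : ∃ n : ℕ, Q ≤ (p : ℝ) ^ (n + 1) := by
    obtain ⟨n, hn⟩ := pow_unbounded_of_one_lt Q hp1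
    refine ⟨n, hn.le.trans ?_⟩
    exact pow_le_pow_right₀ hp1.le (Nat.le_succ n)
  refine ⟨Nat.find hex + 1, by omega, Nat.find_spec hex, ?_⟩
  rcases Nat.eq_zero_or_pos (Nat.find hex) with h | h
  · rw [h, zero_add, pow_one]
    nlinarith
  · obtain ⟨k, hk⟩ : ∃ k, Nat.find hex = k + 1 := ⟨Nat.find hex - 1, by omega⟩
    have h1 := Nat.find_min hex (m := k) (by omega)
    rw [hk, pow_succ]
    exact mul_le_mul_of_nonneg_right (not_le.1 h1).le (by linarith)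

theorem kp_finite (S : Finset ℕ) (N : ℕ) (Z Y : ℝ) : (KP S N Z Y).Finite := by
  refine (Set.finite_Icc N (3 * N)).subset ?_
  rintro n ⟨h1, h2, -⟩
  exact ⟨h1.le, by omega⟩

theorem winS_finite (Sp : Finset ℕ) (N₀ M : ℤ) (L Z Y : ℝ) : (WinS Sp N₀ M L Z Y).Finite := by
  refine (Set.finite_Icc (-⌈L⌉) ⌈L⌉).subset ?_
  rintro n ⟨h1, -⟩
  have h2 := abs_le.1 h1
  constructor
  · have : (-(⌈L⌉ : ℝ)) ≤ n := by
      have := Int.le_ceil L
      linarith
    exact_mod_cast this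
  · have : (n : ℝ) ≤ ⌈L⌉ := by
      have := Int.le_ceil L
      linarith
    exact_mod_cast this

theorem ns_mono {S : Finset ℕ} {Z Z' : ℝ} (h : Z ≤ Z') {n : ℤ} (hn : NS S Z n) : NS S Z' n := by
  obtain ⟨a, b, h1, h2, h3⟩ := hn
  exact ⟨a, b, h1, h2.trans h, h3⟩

/-- the covering -/
theorem cover (S : Finset ℕ) (N M : ℕ) (Z Z' Y L W : ℝ) (hL : 1 ≤ L) (hW : 0 ≤ W) (hM : 1 ≤ M)
    (hML : (M : ℝ) * L ≤ N / 2) (hZ : Z ≤ Z') (hSM : ∀ p ∈ S, p ∣ M)
    (h : ∀ N₀ : ℤ, (N : ℝ) ≤ N₀ → (N₀ : ℝ) ≤ 2 * N →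
      (∀ p ∈ S, ¬ (p : ℤ) ∣ N₀ ∧ IsSquare ((N₀ : ℤ) : ZMod p)) →
      (∀ τ : ℤ, |(τ : ℝ)| ≤ L → (N : ℝ) ≤ ((N₀ + M * τ : ℤ) : ℝ)) →
      ((WinS S N₀ M L Z' Y).ncard : ℝ) ≤ L * W) :
    ((KP S N Z Y).ncard : ℝ) ≤ N * W := by
  classical
  obtain ⟨B, hB⟩ : ∃ B : Finset ℕ, B = (kp_finite S N Z Y).toFinset := ⟨_, rfl⟩
  have hBc : (KP S N Z Y).ncard = B.card := by
    rw [hB, Set.ncard_eq_toFinset_card _ (kp_finite S N Z Y)]
  have hBmem : ∀ n ∈ B, n ∈ KP S N Z Y := by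
    intro n hn
    rwa [hB, Set.Finite.mem_toFinset] at hn
  rw [hBc]
  obtain ⟨r, hr⟩ : ∃ r : ℕ, r = ⌊L⌋₊ := ⟨_, rfl⟩
  have hrL : (r : ℝ) ≤ L := by rw [hr]; exact Nat.floor_le (by linarith)
  have hLr : L < r + 1 := by rw [hr]; exact Nat.lt_floor_add_one L
  obtain ⟨g, hg⟩ : ∃ g : ℕ, g = 2 * r + 1 := ⟨_, rfl⟩
  have hg0 : 0 < g := by omega
  have hgL : L ≤ g := by
    rw [hg]
    push_cast
    have : (0 : ℝ) ≤ r := Nat.cast_nonneg r
    linarith
  obtain ⟨J, hJ⟩ : ∃ J : ℕ, J = (N / 2) / M / g := ⟨_, rfl⟩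
  have hmaps : ∀ n ∈ B, ((n - N - 1) % M, (n - N - 1) / M / g) ∈
      Finset.range M ×ˢ Finset.range (J + 1) := by
    intro n hn
    obtain ⟨h1, h2, -⟩ := hBmem n hn
    rw [Finset.mem_product, Finset.mem_range, Finset.mem_range, hJ]
    refine ⟨Nat.mod_lt _ (by omega), ?_⟩
    have h3 : (n - N - 1) / M / g ≤ (N / 2) / M / g :=
      Nat.div_le_div_right (Nat.div_le_div_right (by omega))
    simp only
    omega
  have hfib : ∀ q ∈ Finset.range M ×ˢ Finset.range (J + 1),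
      (((B.filter fun n => ((n - N - 1) % M, (n - N - 1) / M / g) = q).card : ℕ) : ℝ) ≤ L * W := by
    rintro ⟨r', j⟩ hq
    rw [Finset.mem_product, Finset.mem_range, Finset.mem_range] at hq
    obtain ⟨hq1, hq2⟩ := hq
    simp only at hq1 hq2
    rcases (B.filter fun n => ((n - N - 1) % M, (n - N - 1) / M / g) = (r', j)).eq_empty_or_nonempty
      with he | ⟨n₀, hn₀⟩
    · rw [he]
      simp only [Finset.card_empty, Nat.cast_zero]
      positivity
    obtain ⟨c, hc⟩ : ∃ c : ℕ, c = N + 1 + r' + M * (j * g + r) := ⟨_, rfl⟩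
    -- decomposition of the elements
    have hdec : ∀ n ∈ B.filter (fun n => ((n - N - 1) % M, (n - N - 1) / M / g) = (r', j)),
        ∃ t : ℕ, t < g ∧ n + M * r = c + M * t := by
      intro n hn
      rw [Finset.mem_filter] at hn
      obtain ⟨hn1, hn2⟩ := hn
      obtain ⟨h1, h2, -⟩ := hBmem n hn1
      rw [Prod.mk.injEq] at hn2
      obtain ⟨h3, h4⟩ := hn2
      refine ⟨(n - N - 1) / M % g, Nat.mod_lt _ hg0, ?_⟩
      have h5 := Nat.div_add_mod (n - N - 1) M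
      have h6 := Nat.div_add_mod ((n - N - 1) / M) g
      rw [h4] at h6
      rw [h3] at h5
      rw [← h6] at h5
      have h7 : n = N + 1 + (M * (g * j + (n - N - 1) / M % g) + r') := by omega
      rw [hc]
      nlinarith
    obtain ⟨t₀, ht₀, hnt₀⟩ := hdec n₀ hn₀
    have hn₀B := hBmem n₀ (Finset.mem_filter.1 hn₀).1
    have hML0 : (M : ℝ) * r ≤ N / 2 :=
      (mul_le_mul_of_nonneg_left hrL (Nat.cast_nonneg M)).trans hML
    have hc1 : (N : ℝ) ≤ ((c : ℤ) : ℝ) := by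
      have : N ≤ c := by rw [hc]; nlinarith [Nat.zero_le (M * (j * g + r))]
      exact_mod_cast this
    have hc2 : ((c : ℤ) : ℝ) ≤ 2 * N := by
      have h1 : c ≤ n₀ + M * r := by rw [hnt₀]; omega
      have h2 : (c : ℝ) ≤ n₀ + M * r := by exact_mod_cast h1
      have h3 : (2 : ℝ) * n₀ ≤ 3 * N := by exact_mod_cast hn₀B.2.1
      push_cast
      linarith
    have hc3 : ∀ p ∈ S, ¬ (p : ℤ) ∣ (c : ℤ) ∧ IsSquare (((c : ℤ) : ℤ) : ZMod p) := by
      intro p hp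
      obtain ⟨h1, h2⟩ := hn₀B.2.2.2.1 p hp
      obtain ⟨M', hM'⟩ := hSM p hp
      have h3 : (n₀ : ZMod p) = (c : ZMod p) := by
        have h4 := congrArg (fun k : ℕ => (k : ZMod p)) hnt₀
        rw [hM'] at h4
        push_cast at h4
        simpa using h4
      constructor
      · intro hd
        apply h1
        have h5 : (c : ZMod p) = 0 := by
          rw [ZMod.natCast_eq_zero_iff]
          exact_mod_cast hd
        rw [← h3, ZMod.natCast_eq_zero_iff] at h5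
        exact h5
      · rw [h3] at h2
        exact_mod_cast h2
    have hc4 : ∀ τ : ℤ, |(τ : ℝ)| ≤ L → (N : ℝ) ≤ (((c : ℤ) + M * τ : ℤ) : ℝ) := by
      intro τ hτ
      have h1 : -(r : ℤ) ≤ τ := by
        have h2 := (abs_le.1 hτ).1
        have h3 : -(r : ℝ) - 1 < τ := by linarith
        have h4 : -(r : ℤ) - 1 < τ := by exact_mod_cast h3
        omega
      have h2 : (N : ℤ) ≤ (c : ℤ) + M * τ := by
        rw [hc]
        push_cast
        have h3 : (M : ℤ) * (-(r : ℤ)) ≤ M * τ := mul_le_mul_of_nonneg_left h1 (by positivity)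
        have h4 : (0 : ℤ) ≤ (M : ℤ) * (j * g) := by positivity
        have h5 : (0 : ℤ) ≤ (r' : ℤ) := by positivity
        linarith
      exact_mod_cast h2
    refine le_trans ?_ (h c hc1 hc2 hc3 hc4)
    have h1 : (B.filter fun n => ((n - N - 1) % M, (n - N - 1) / M / g) = (r', j)).card =
        ((B.filter fun n => ((n - N - 1) % M, (n - N - 1) / M / g) = (r', j) : Finset ℕ) :
          Set ℕ).ncard := (Set.ncard_coe_finset _).symm
    rw [h1]
    have h2 := Set.ncard_le_ncard_of_injOn (s := ((B.filter fun n =>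
      ((n - N - 1) % M, (n - N - 1) / M / g) = (r', j) : Finset ℕ) : Set ℕ))
      (t := WinS S c M L Z' Y) (fun n : ℕ => ((n : ℤ) - c) / M) ?_ ?_ (winS_finite _ _ _ _ _ _)
    · exact_mod_cast h2
    · intro n hn
      rw [Finset.mem_coe] at hn
      obtain ⟨t, ht, hnt⟩ := hdec n hn
      rw [Finset.mem_filter] at hn
      obtain ⟨hn1, hn2, hn3, hn4, x, y, hx, hy, hns, hxy⟩ := hBmem n hn.1
      have hM0 : (M : ℤ) ≠ 0 := by omega
      have h3 : (n : ℤ) - c = M * ((t : ℤ) - r) := by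
        have := congrArg (fun k : ℕ => (k : ℤ)) hnt
        push_cast at this
        linear_combination this
      have h4 : ((n : ℤ) - c) / M = (t : ℤ) - r := by
        rw [h3, Int.mul_ediv_cancel_left _ hM0]
      have h5 : (c : ℤ) + M * ((t : ℤ) - r) = n := by rw [← h3]; ring
      rw [h4]
      refine ⟨?_, ?_, x, y, hx, hy, ?_, ?_⟩
      · have h6 : |(t : ℤ) - r| ≤ r := by
          rw [abs_le]
          constructor <;> omega
        have h7 : (((|(t : ℤ) - r| : ℤ)) : ℝ) ≤ r := by exact_mod_cast h6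
        push_cast at h7 ⊢
        linarith
      · rw [h5]
        exact hn3
      · rw [h5]
        exact ns_mono hZ hns
      · rw [h5]
        push_cast
        exact hxy
    · intro a ha b hb hab
      rw [Finset.mem_coe] at ha hb
      obtain ⟨t, ht, hnt⟩ := hdec a ha
      obtain ⟨t', ht', hnt'⟩ := hdec b hb
      have hM0 : (M : ℤ) ≠ 0 := by omega
      have h3 : (a : ℤ) - c = M * ((t : ℤ) - r) := by
        have := congrArg (fun k : ℕ => (k : ℤ)) hnt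
        push_cast at this
        linear_combination this
      have h3' : (b : ℤ) - c = M * ((t' : ℤ) - r) := by
        have := congrArg (fun k : ℕ => (k : ℤ)) hnt'
        push_cast at this
        linear_combination this
      simp only at hab
      rw [h3, h3', Int.mul_ediv_cancel_left _ hM0, Int.mul_ediv_cancel_left _ hM0] at hab
      have h4 : (t : ℤ) = t' := by omega
      have h5 : (a : ℤ) = b := by
        rw [h4] at h3
        linarith
      exact_mod_cast h5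
  have h1 : B.card = ∑ q ∈ Finset.range M ×ˢ Finset.range (J + 1),
      (B.filter fun n => ((n - N - 1) % M, (n - N - 1) / M / g) = q).card :=
    Finset.card_eq_sum_card_fiberwise hmaps
  have h2 : (B.card : ℝ) ≤ ∑ q ∈ Finset.range M ×ˢ Finset.range (J + 1), L * W := by
    rw [h1]
    push_cast
    exact Finset.sum_le_sum hfib
  refine h2.trans ?_
  rw [Finset.sum_const, Finset.card_product, Finset.card_range, Finset.card_range, nsmul_eq_mul]
  push_cast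
  have h3 : (M : ℝ) * J * L ≤ N / 2 := by
    have h4 : J * g ≤ N / 2 / M := by rw [hJ]; exact Nat.div_mul_le_self _ _
    have h5 : M * (J * g) ≤ N / 2 := (Nat.mul_le_mul_left M h4).trans (Nat.mul_div_le _ _)
    have h6 : 2 * (M * (J * g)) ≤ N := by omega
    have h7 : (2 : ℝ) * (M * (J * g)) ≤ N := by exact_mod_cast h6
    have h8 : (M : ℝ) * J * L ≤ M * J * g := mul_le_mul_of_nonneg_left hgL (by positivity)
    linarith
  calc (M : ℝ) * ((J : ℝ) + 1) * (L * W) = (M * J * L + M * L) * W := by ring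
    _ ≤ N * W := mul_le_mul_of_nonneg_right (by linarith) hW

theorem t (hBL : StmtBL) : StmtKB := by
  classical
  intro s e he he2
  have hs1 : (0 : ℝ) < (s : ℝ) + 1 := by positivity
  obtain ⟨c₀, hc0, hc1, D₁, hD1, hblk⟩ := hBL s (1 / (2 * ((s : ℝ) + 1))) e (by positivity) he he2
  obtain ⟨N₁, hN₁⟩ := exists_nat_ge (D₁ + 2 ^ 24)
  refine ⟨min c₀ (1 / (8 * ((s : ℝ) + 1))), lt_min hc0 (by positivity),
    (min_le_left _ _).trans hc1, N₁, fun N hN A hA1 hA2 S hS hSp => ?_⟩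
  obtain ⟨c, hc⟩ : ∃ c, c = min c₀ (1 / (8 * ((s : ℝ) + 1))) := ⟨_, rfl⟩
  rw [← hc] at hSp ⊢
  have hcc0 : c ≤ c₀ := by rw [hc]; exact min_le_left _ _
  have hcs : c ≤ 1 / (8 * ((s : ℝ) + 1)) := by rw [hc]; exact min_le_right _ _
  have hcpos : 0 < c := by rw [hc]; exact lt_min hc0 (by positivity)
  have hNr : D₁ + 2 ^ 24 ≤ (N : ℝ) := hN₁.trans (by exact_mod_cast hN)
  have hN24 : (2 : ℝ) ^ 24 ≤ N := by linarith
  have hN1 : (1 : ℝ) ≤ N := by
    have : (1 : ℝ) ≤ 2 ^ 24 := by norm_num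
    linarith
  have hN0 : (0 : ℝ) < N := by linarith
  have hA2' : 1 ≤ A ^ 2 := one_le_pow₀ hA1
  have hA0 : 0 < A ^ 2 := by positivity
  obtain ⟨L, hL1, hL2, hwin⟩ := hblk N (by
    have : (0 : ℝ) ≤ 2 ^ 24 := by norm_num
    linarith) A hA1 hA2
  -- exponents
  have hQ1 : (1 : ℝ) ≤ (N : ℝ) ^ (1 / (2 * ((s : ℝ) + 1))) := Real.one_le_rpow hN1 (by positivity)
  have hexp : ∀ p : ℕ, ∃ a : ℕ, p ∈ S → 1 ≤ a ∧ (N : ℝ) ^ (1 / (2 * ((s : ℝ) + 1))) ≤ (p : ℝ) ^ a ∧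
      (p : ℝ) ^ a ≤ (N : ℝ) ^ (1 / (2 * ((s : ℝ) + 1))) * p := by
    intro p
    by_cases hp : p ∈ S
    · obtain ⟨a, ha⟩ := exp_exists p (hSp p hp).1.two_le _ hQ1
      exact ⟨a, fun _ => ha⟩
    · exact ⟨0, fun h => absurd h hp⟩
  choose a ha using hexp
  obtain ⟨M, hM⟩ : ∃ M : ℕ, M = ∏ p ∈ S, p ^ a p := ⟨_, rfl⟩
  have hM1 : 1 ≤ M := by
    rw [hM]
    exact Finset.prod_pos fun p hp => pow_pos (hSp p hp).1.pos _
  have hMle : (M : ℝ) ≤ (N : ℝ) ^ ((5 : ℝ) / 8) := by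
    rw [hM]
    push_cast
    have h1 : ∀ p ∈ S, (p : ℝ) ^ a p ≤ (N : ℝ) ^ (5 / (8 * ((s : ℝ) + 1))) := by
      intro p hp
      refine (ha p hp).2.2.trans ?_
      have h2 : (p : ℝ) ≤ (N : ℝ) ^ (1 / (8 * ((s : ℝ) + 1))) := by
        refine (hSp p hp).2.2.trans (Real.rpow_le_rpow_of_exponent_le hN1 ?_)
        refine (div_le_self hcpos.le hA2').trans hcs
      calc (N : ℝ) ^ (1 / (2 * ((s : ℝ) + 1))) * p
          ≤ (N : ℝ) ^ (1 / (2 * ((s : ℝ) + 1))) * (N : ℝ) ^ (1 / (8 * ((s : ℝ) + 1))) :=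
            mul_le_mul_of_nonneg_left h2 (by positivity)
        _ = (N : ℝ) ^ (5 / (8 * ((s : ℝ) + 1))) := by
            rw [← Real.rpow_add hN0]
            congr 1
            rw [div_add_div _ _ (by positivity) (by positivity),
              div_eq_div_iff (by positivity) (by positivity)]
            ring
    have h2 : (1 : ℝ) ≤ (N : ℝ) ^ (5 / (8 * ((s : ℝ) + 1))) := Real.one_le_rpow hN1 (by positivity)
    calc ∏ p ∈ S, (p : ℝ) ^ a p ≤ ∏ _p ∈ S, (N : ℝ) ^ (5 / (8 * ((s : ℝ) + 1))) :=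
          Finset.prod_le_prod (fun p _ => by positivity) h1
      _ = ((N : ℝ) ^ (5 / (8 * ((s : ℝ) + 1)))) ^ S.card := Finset.prod_const _
      _ ≤ ((N : ℝ) ^ (5 / (8 * ((s : ℝ) + 1)))) ^ s := pow_le_pow_right₀ h2 hS
      _ = (N : ℝ) ^ (5 / (8 * ((s : ℝ) + 1)) * s) := by
          rw [← Real.rpow_natCast, ← Real.rpow_mul hN0.le]
      _ ≤ (N : ℝ) ^ ((5 : ℝ) / 8) := by
          apply Real.rpow_le_rpow_of_exponent_le hN1
          rw [div_mul_eq_mul_div, div_le_div_iff₀ (by positivity) (by norm_num)]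
          nlinarith
  have hN8 : (8 : ℝ) ≤ (N : ℝ) ^ ((1 : ℝ) / 8) := by
    have h1 : (8 : ℝ) = ((2 : ℝ) ^ (24 : ℕ)) ^ ((1 : ℝ) / 8) := by
      rw [← Real.rpow_natCast, ← Real.rpow_mul (by norm_num)]
      norm_num
    exact h1.le.trans (Real.rpow_le_rpow (by positivity) hN24 (by norm_num))
  have hM14 : (M : ℝ) * (N : ℝ) ^ ((1 : ℝ) / 4) ≤ N / 8 := by
    have h1 : (M : ℝ) * (N : ℝ) ^ ((1 : ℝ) / 4) ≤ (N : ℝ) ^ ((7 : ℝ) / 8) := by
      calc (M : ℝ) * (N : ℝ) ^ ((1 : ℝ) / 4) ≤ (N : ℝ) ^ ((5 : ℝ) / 8) * (N : ℝ) ^ ((1 : ℝ) / 4) :=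
            mul_le_mul_of_nonneg_right hMle (by positivity)
        _ = (N : ℝ) ^ ((7 : ℝ) / 8) := by
            rw [← Real.rpow_add hN0]
            norm_num
    have h2 : (N : ℝ) ^ ((7 : ℝ) / 8) * (N : ℝ) ^ ((1 : ℝ) / 8) = N := by
      rw [← Real.rpow_add hN0]
      norm_num
    have h3 : (0 : ℝ) < (N : ℝ) ^ ((7 : ℝ) / 8) := by positivity
    nlinarith
  have hML : (M : ℝ) * L ≤ N / 2 := by
    have h1 : L ≤ (N : ℝ) ^ ((1 : ℝ) / 4) :=
      hL2.trans (Real.rpow_le_rpow_of_exponent_le hN1 (by norm_num))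
    have h2 := mul_le_mul_of_nonneg_left h1 (Nat.cast_nonneg M : (0 : ℝ) ≤ M)
    linarith
  have hcov := cover S N M ((N : ℝ) ^ (c / A ^ 2)) ((N : ℝ) ^ (c₀ / A ^ 2)) ((N : ℝ) ^ A) L
    ((N : ℝ) ^ (-(c₀ / A ^ 2))) hL1 (by positivity) hM1 hML
    (Real.rpow_le_rpow_of_exponent_le hN1 (div_le_div_of_nonneg_right hcc0 hA0.le))
    (fun p hp => by
      rw [hM]
      exact (dvd_pow_self p (by have := (ha p hp).1; omega)).trans (Finset.dvd_prod_of_mem _ hp))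
    (fun N₀ h1 h2 h3 h4 => hwin N₀ M S a hS
      (fun p hp => ⟨(hSp p hp).1, (hSp p hp).2.1, (h3 p hp).1, (h3 p hp).2, (ha p hp).1,
        (ha p hp).2.1⟩) (by rw [hM]; push_cast; rfl) h1 h2 (by push_cast; exact hM14) h4)
  refine hcov.trans ?_
  have h1 : (N : ℝ) * (N : ℝ) ^ (-(c₀ / A ^ 2)) = (N : ℝ) ^ (1 - c₀ / A ^ 2) := by
    rw [sub_eq_add_neg, Real.rpow_add hN0, Real.rpow_one]
  rw [h1]
  apply Real.rpow_le_rpow_of_exponent_le hN1
  have := div_le_div_of_nonneg_right hcc0 hA0.le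
  linarith

end Pool.Agent.H14.AD.KB
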