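import Pool.Agent.H14.AD.Circle
import Pool.Agent.H14.AD.Ideals
import Pool.Agent.H45.Lib.Ts3997aac3.Q210.PL.REG

/-!
# Packing of the points attached to ideals of one class
-/

set_option autoImplicit false

namespace Pool.Agent.H14.AD

open NumberField Module Q263.CN

section

variable {K : Type} [Field K] [NumberField K]

/-- the logarithm of the quotient of the two conjugates -/
noncomputable def lam (σ : K →+* ℝ) (a : 𝓞 K) : ℝ :=
  2 * Real.log |σ (a : K)| - Real.log |((Algebra.norm ℤ a : ℤ) : ℝ)|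

theorem norm_ne {a : 𝓞 K} (ha : a ≠ 0) : ((Algebra.norm ℤ a : ℤ) : ℝ) ≠ 0 := by
  have := Algebra.norm_ne_zero_iff (R := ℤ).2 ha
  exact_mod_cast this

theorem sig_ne (σ : K →+* ℝ) {a : 𝓞 K} (ha : a ≠ 0) : σ (a : K) ≠ 0 := by
  rw [map_ne_zero]
  exact RingOfIntegers.coe_ne_zero_iff.2 ha

theorem lam_mul (σ : K →+* ℝ) {a b : 𝓞 K} (ha : a ≠ 0) (hb : b ≠ 0) :
    lam σ (a * b) = lam σ a + lam σ b := by
  unfold lam
  have h1 : σ ((a * b : 𝓞 K) : K) = σ (a : K) * σ (b : K) := by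
    rw [← map_mul]
    rfl
  rw [h1, map_mul, Int.cast_mul, abs_mul, abs_mul,
    Real.log_mul (abs_ne_zero.2 (sig_ne σ ha)) (abs_ne_zero.2 (sig_ne σ hb)),
    Real.log_mul (abs_ne_zero.2 (norm_ne ha)) (abs_ne_zero.2 (norm_ne hb))]
  ring

theorem norm_int (h2 : finrank ℚ K = 2) (n : ℤ) : Algebra.norm ℤ (n : 𝓞 K) = n ^ 2 := by
  have h4 : (n : 𝓞 K) = algebraMap ℤ (𝓞 K) n := by simp
  rw [h4, Algebra.norm_algebraMap, RingOfIntegers.rank, h2]

theorem lam_int (σ : K →+* ℝ) (h2 : finrank ℚ K = 2) (n : ℤ) : lam σ (n : 𝓞 K) = 0 := by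
  unfold lam
  rw [norm_int h2]
  have h1 : σ (((n : 𝓞 K) : 𝓞 K) : K) = n := by simp
  rw [h1]
  push_cast
  rw [abs_pow, Real.log_pow]
  push_cast
  ring

theorem norm_unit (u : (𝓞 K)ˣ) : |((Algebra.norm ℤ (u : 𝓞 K) : ℤ) : ℝ)| = 1 := by
  have h1 : IsUnit (Algebra.norm ℤ (u : 𝓞 K)) := u.isUnit.map (Algebra.norm ℤ)
  rcases Int.isUnit_iff.1 h1 with h2 | h2 <;> rw [h2] <;> simp

theorem sig_zpow (σ : K →+* ℝ) (u : (𝓞 K)ˣ) (m : ℤ) :
    σ (((u ^ m : (𝓞 K)ˣ) : 𝓞 K) : K) = (σ ((u : 𝓞 K) : K)) ^ m := by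
  have h1 := map_zpow (Units.map ((σ.comp (algebraMap (𝓞 K) K)) : (𝓞 K) →* ℝ)) u m
  have h2 := congrArg (fun z : ℝˣ => (z : ℝ)) h1
  simp only [Units.val_zpow_eq_zpow_val] at h2
  exact h2

theorem lam_zpow (σ : K →+* ℝ) (u : (𝓞 K)ˣ) (m : ℤ) :
    lam σ ((u ^ m : (𝓞 K)ˣ) : 𝓞 K) = 2 * (m * Real.log |σ ((u : 𝓞 K) : K)|) := by
  unfold lam
  rw [norm_unit, sig_zpow, abs_zpow, Real.log_zpow, Real.log_one, sub_zero]

theorem abs_max (u w : ℝ) : |u| + |w| = max |u + w| |u - w| := by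
  rcases abs_cases u with ⟨h1, h1'⟩ | ⟨h1, h1'⟩ <;> rcases abs_cases w with ⟨h2, h2'⟩ | ⟨h2, h2'⟩ <;>
  rcases abs_cases (u + w) with ⟨h3, h3'⟩ | ⟨h3, h3'⟩ <;>
  rcases abs_cases (u - w) with ⟨h4, h4'⟩ | ⟨h4, h4'⟩ <;>
  rcases max_cases |u + w| |u - w| with ⟨h5, h5'⟩ | ⟨h5, h5'⟩ <;> rw [h5] <;> linarith

theorem exp_max {A A' N l : ℝ} (hA : 0 < A) (hA' : 0 < A') (hN : N = A * A')
    (hl : l = 2 * Real.log A - Real.log N) :
    max A A' = Real.exp ((Real.log N + |l|) / 2) := by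
  have h1 : Real.log N = Real.log A + Real.log A' := by
    rw [hN, Real.log_mul hA.ne' hA'.ne']
  have h2 : l = Real.log A - Real.log A' := by rw [hl, h1]; ring
  rcases le_total A A' with h3 | h3
  · have h4 := Real.log_le_log hA h3
    rw [max_eq_right h3, h1, h2, abs_of_nonpos (by linarith)]
    rw [show (Real.log A + Real.log A' + -(Real.log A - Real.log A')) / 2 = Real.log A' by ring,
      Real.exp_log hA']
  · have h4 := Real.log_le_log hA' h3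
    rw [max_eq_left h3, h1, h2, abs_of_nonneg (by linarith)]
    rw [show (Real.log A + Real.log A' + (Real.log A - Real.log A')) / 2 = Real.log A by ring,
      Real.exp_log hA]

theorem size {d : ℕ} (hd : 1 < d) (hs : Squarefree d) (h2 : finrank ℚ K = 2) (x : K)
    (hx : x ^ 2 = (d : K)) (σ : K →+* ℝ) (hσ : σ x = √(d : ℝ)) (a : 𝓞 K) (ha : ∀ n : ℤ, a ≠ n) :
    ∃ X Y : ℤ, 0 ≤ X ∧ 1 ≤ Y ∧ X ^ 2 - d * Y ^ 2 = 4 * Algebra.norm ℤ a ∧
      (X : ℝ) + Y * √(d : ℝ) =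
        2 * Real.exp ((Real.log |((Algebra.norm ℤ a : ℤ) : ℝ)| + |lam σ a|) / 2) := by
  have hx' : x ^ 2 = ((d : ℤ) : K) := by rw [hx]; simp
  have hsd : Squarefree (d : ℤ) := Int.squarefree_natCast.2 hs
  have hd1 : (d : ℤ) ≠ 1 := by omega
  obtain ⟨b, hb0, hb1⟩ := exists_basis hd1 hsd h2 x hx'
  obtain ⟨t, s, hα, hnorm⟩ := int_coord' hx' b hb0 hb1 hsd a
  have hs0 : s ≠ 0 := by
    rintro rfl
    have h9 : Even t := by
      have h10 : Even (t ^ 2) := ⟨2 * Algebra.norm ℤ a, by linarith⟩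
      exact (Int.even_pow.1 h10).1
    obtain ⟨t', ht'⟩ := h9
    apply ha t'
    apply RingOfIntegers.ext
    have h11 : ((t' : 𝓞 K) : K) = (t' : K) := map_intCast (algebraMap (𝓞 K) K) t'
    rw [hα, ht', h11]
    push_cast
    ring
  have ha0 : a ≠ 0 := by
    have := ha 0
    simpa using this
  refine ⟨|t|, |s|, abs_nonneg _, Int.one_le_abs hs0, by rw [sq_abs, sq_abs]; exact hnorm, ?_⟩
  have hσa : σ (a : K) = (t + s * √(d : ℝ)) / 2 := by
    rw [hα, map_add, map_mul, hσ]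
    simp only [map_ratCast]
    push_cast
    ring
  have hd0 : (0 : ℝ) ≤ d := Nat.cast_nonneg d
  have hsq : √(d : ℝ) * √(d : ℝ) = d := Real.mul_self_sqrt hd0
  have hnr : (t : ℝ) ^ 2 - d * (s : ℝ) ^ 2 = 4 * ((Algebra.norm ℤ a : ℤ) : ℝ) := by
    exact_mod_cast hnorm
  have hN : |((Algebra.norm ℤ a : ℤ) : ℝ)| = |σ (a : K)| * |(t - s * √(d : ℝ)) / 2| := by
    rw [← abs_mul, hσa]
    congr 1
    linear_combination (-1 / 4 : ℝ) * hnr + (s : ℝ) ^ 2 / 4 * hsq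
  have hA : 0 < |σ (a : K)| := abs_pos.2 (sig_ne σ ha0)
  have hA' : 0 < |(t - s * √(d : ℝ)) / 2| := by
    by_contra hcon
    have h3 : |(t - s * √(d : ℝ)) / 2| = 0 := le_antisymm (not_lt.1 hcon) (abs_nonneg _)
    rw [h3, mul_zero, abs_eq_zero] at hN
    exact norm_ne ha0 hN
  rw [← exp_max (l := lam σ a) hA hA' hN rfl]
  have h3 := abs_max (t : ℝ) (s * √(d : ℝ))
  push_cast
  rw [abs_mul, abs_of_nonneg (Real.sqrt_nonneg _)] at h3
  rw [h3, hσa, abs_div, abs_div, abs_of_pos (by norm_num : (0 : ℝ) < 2)]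
  rw [mul_max_of_nonneg _ _ (by norm_num : (0 : ℝ) ≤ 2)]
  congr 1 <;> ring

/-- the norm of the reduced product -/
def NN (S : Finset ℕ) (v w : ℕ → ℕ) : ℕ := ∏ p ∈ S, p ^ ((v p - w p) + (w p - v p))

theorem NN_self (S : Finset ℕ) (v : ℕ → ℕ) : NN S v v = 1 := by
  unfold NN
  simp

theorem pack {d : ℕ} (hd : 1 < d) (hs : Squarefree d) (h2 : finrank ℚ K = 2) (x : K)
    (hx : x ^ 2 = (d : K)) (σ : K →+* ℝ) (hσ : σ x = √(d : ℝ))
    {ι : Type} (T : Finset ι) (v : ι → ℕ → ℕ) (S : Finset ℕ) (P Q : ℕ → Ideal (𝓞 K))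
    (h : ∀ p ∈ S, Pair (P p) (Q p) p)
    (hinj : ∀ i ∈ T, ∀ j ∈ T, i ≠ j → ∃ p ∈ S, v i p ≠ v j p)
    (hcl : ∀ i ∈ T, ∀ j ∈ T, ((∏ p ∈ S, P p ^ v i p) * ∏ p ∈ S, Q p ^ v j p).IsPrincipal)
    (B : ℝ) (hB : 0 < B)
    (hyp : ∀ i ∈ T, ∀ j ∈ T, ∀ X Y : ℤ, 0 ≤ X → 1 ≤ Y →
      (X ^ 2 - d * Y ^ 2 = 4 * (NN S (v i) (v j) : ℤ) ∨
        X ^ 2 - d * Y ^ 2 = -4 * (NN S (v i) (v j) : ℤ)) → 2 * Real.exp B < X + Y * √(d : ℝ))
    (hsize : ∀ i ∈ T, ∀ j ∈ T, Real.log (NN S (v i) (v j)) ≤ B) :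
    (T.card : ℝ) * B ≤ 2 * Units.regulator K := by
  classical
  have hreg0 : 0 < Units.regulator K := Units.regulator_pos K
  rcases T.eq_empty_or_nonempty with hT | ⟨i0, hi0⟩
  · subst hT
    simp only [Finset.card_empty, Nat.cast_zero, zero_mul]
    linarith
  -- the fundamental unit
  have hd1 : (d : ℤ) ≠ 1 := by omega
  have hsf : Squarefree (d : ℤ) := Int.squarefree_natCast.2 hs
  have hsig := Pool.Agent.H140.LD.signature_real h2 hd1 hsf x hx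
  have hcard : Fintype.card (InfinitePlace K) = 2 := by
    rw [InfinitePlace.card_eq_nrRealPlaces_add_nrComplexPlaces, hsig.1, hsig.2]
  have hrank : Units.rank K = 1 := by rw [Units.rank, hcard]
  obtain ⟨ε, hε, hgen⟩ := Pool.Agent.Q210.PL.REG.exists_fund σ hrank
  have hreg := Pool.Agent.H140.LD.regulator_real h2 hd1 hsf x hx σ ε hε hgen
  have hlε : Real.log |σ ((ε : 𝓞 K) : K)| = Units.regulator K := by
    rw [hreg, abs_of_pos (by linarith)]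
  -- generators
  have hgenr : ∀ i, ∃ b : 𝓞 K, i ∈ T → b ≠ 0 ∧
      (∏ p ∈ S, P p ^ v i p) * (∏ p ∈ S, Q p ^ v i0 p) = Ideal.span {b} := by
    intro i
    by_cases hi : i ∈ T
    · obtain ⟨b, hb⟩ := (hcl i hi i0 hi0).principal
      refine ⟨b, fun _ => ⟨?_, hb⟩⟩
      rintro rfl
      have h3 : (∏ p ∈ S, P p ^ v i p) * (∏ p ∈ S, Q p ^ v i0 p) ≠ ⊥ := by
        apply mul_ne_zero
        · exact Finset.prod_ne_zero_iff.2 fun p hp => pow_ne_zero _ (h p hp).P0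
        · exact Finset.prod_ne_zero_iff.2 fun p hp => pow_ne_zero _ (h p hp).symm.P0
      apply h3
      rw [hb]
      simp
    · exact ⟨0, fun h3 => absurd h3 hi⟩
  choose b hb using hgenr
  refine circle T (fun i => lam σ (b i)) _ B (by linarith) hB ?_
  intro i hi j hj m hne
  have hα : ∃ α : 𝓞 K, (∀ n : ℤ, α ≠ n) ∧
      |((Algebra.norm ℤ α : ℤ) : ℝ)| = (NN S (v i) (v j) : ℝ) ∧
      lam σ α = lam σ (b i) - lam σ (b j) + 2 * Units.regulator K * m := by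
    by_cases hij : i = j
    · subst hij
      have hm : m ≠ 0 := by
        rcases hne with h3 | h3
        · exact absurd rfl h3
        · exact h3
      have h3 := lam_zpow σ ε m
      rw [hlε] at h3
      refine ⟨((ε ^ m : (𝓞 K)ˣ) : 𝓞 K), fun n hn => ?_, ?_, ?_⟩
      · rw [hn, lam_int σ h2] at h3
        have hm' : (m : ℝ) ≠ 0 := by exact_mod_cast hm
        have : 2 * ((m : ℝ) * Units.regulator K) ≠ 0 :=
          mul_ne_zero two_ne_zero (mul_ne_zero hm' hreg0.ne')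
        exact this h3.symm
      · rw [norm_unit, NN_self, Nat.cast_one]
      · rw [h3]
        ring
    · obtain ⟨hbi0, hbi⟩ := hb i hi
      obtain ⟨hbj0, hbj⟩ := hb j hj
      obtain ⟨a, ha1, ha2⟩ := JJ_gen h (v i) (v j) _ (b i) (b j) hbj0 hbi hbj
      obtain ⟨p, hp, hvp⟩ := hinj i hi j hj hij
      have hM0 : (∏ p ∈ S, p ^ (v j p - v i p) : ℕ) ≠ 0 :=
        Finset.prod_ne_zero_iff.2 fun p hp => pow_ne_zero _ (h p hp).pp.ne_zero
      have hM0' : ((∏ p ∈ S, p ^ (v j p - v i p) : ℕ) : 𝓞 K) ≠ 0 := by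
        exact_mod_cast hM0
      have ha0 : a ≠ 0 := by
        rintro rfl
        rw [mul_zero] at ha1
        exact mul_ne_zero hbi0 hM0' ha1.symm
      have hu0 : ((ε ^ m : (𝓞 K)ˣ) : 𝓞 K) ≠ 0 := (ε ^ m).ne_zero
      have hlam : lam σ a = lam σ (b i) - lam σ (b j) := by
        have h3 := congrArg (lam σ) ha1
        rw [lam_mul σ hbj0 ha0, lam_mul σ hbi0 hM0'] at h3
        have h4 : lam σ (((∏ p ∈ S, p ^ (v j p - v i p) : ℕ) : 𝓞 K)) = 0 := by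
          have := lam_int σ h2 ((∏ p ∈ S, p ^ (v j p - v i p) : ℕ) : ℤ)
          rwa [Int.cast_natCast] at this
        linarith
      refine ⟨a * ((ε ^ m : (𝓞 K)ˣ) : 𝓞 K), fun n hn => ?_, ?_, ?_⟩
      · refine JJ_irr h (v i) (v j) hp hvp n ?_
        rw [← ha2, ← hn]
        exact (Ideal.span_singleton_mul_right_unit (ε ^ m).isUnit a).symm
      · rw [map_mul, Int.cast_mul, abs_mul, norm_unit, mul_one]
        have h3 := JJ_norm h (v i) (v j)
        rw [← ha2, Ideal.absNorm_span_singleton] at h3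
        unfold NN
        rw [← h3, Nat.cast_natAbs, Int.cast_abs]
      · rw [lam_mul σ ha0 hu0, hlam, lam_zpow, hlε]
        ring
  obtain ⟨α, hα1, hα2, hα3⟩ := hα
  obtain ⟨X, Y, hX, hY, hXY, hval⟩ := size hd hs h2 x hx σ hσ α hα1
  have h3 : X ^ 2 - d * Y ^ 2 = 4 * (NN S (v i) (v j) : ℤ) ∨
      X ^ 2 - d * Y ^ 2 = -4 * (NN S (v i) (v j) : ℤ) := by
    have h4 : |Algebra.norm ℤ α| = (NN S (v i) (v j) : ℤ) := by
      have : ((|Algebra.norm ℤ α| : ℤ) : ℝ) = (((NN S (v i) (v j) : ℕ) : ℤ) : ℝ) := by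
        rw [Int.cast_abs, hα2]
        push_cast
        rfl
      exact_mod_cast this
    rcases abs_choice (Algebra.norm ℤ α) with h5 | h5
    · left
      rw [hXY, ← h4, h5]
    · right
      rw [hXY, ← h4, h5]
      ring
  have h4 := hyp i hi j hj X Y hX hY h3
  rw [hval, hα2] at h4
  have h5 : B < (Real.log (NN S (v i) (v j)) + |lam σ α|) / 2 := by
    rw [← Real.exp_lt_exp]
    linarith
  have h6 := hsize i hi j hj
  rw [← hα3]
  linarith

end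

end Pool.Agent.H14.AD
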