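import Pool.Agent.H14.AD.PKSC

/-! Torsion of the class group: `StmtPK`. -/

set_option autoImplicit false

theorem Pool.Agent.H14.AD.PK.t : Pool.Agent.H45.AD.StmtPK := Pool.Agent.H14.AD.PK
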