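import Pool.Agent.H14.AD.Main
import Pool.Agent.H45.AD.Stm

/-!
# Torsion of the class group, class numbers of rings of S-integers
-/

set_option autoImplicit false

namespace Pool.Agent.H14.AD

open NumberField Module Pool.Agent.H45.RQ Pool.Agent.H45.AD

/-- counting by the classes -/
theorem count {Cl : Type} [CommGroup Cl] [Finite Cl] (H : Subgroup Cl) {ι : Type} (T : Finset ι)
    (g : ι → Cl) (hg : ∀ i ∈ T, g i ∈ H) (B L : ℝ) [DecidableEq Cl]
    (h : ∀ c : Cl, ((T.filter fun i => g i = c).card : ℝ) * B ≤ L) :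
    (T.card : ℝ) * B ≤ Nat.card H * L := by
  classical
  cases nonempty_fintype Cl
  have h1 : T.card = ∑ c ∈ Finset.univ.filter (fun c => c ∈ H), (T.filter fun i => g i = c).card :=
    Finset.card_eq_sum_card_fiberwise fun i hi => by
      simpa using hg i hi
  rw [h1]
  push_cast
  rw [Finset.sum_mul]
  refine (Finset.sum_le_card_nsmul _ _ _ fun c _ => h c).trans ?_
  rw [nsmul_eq_mul]
  have h2 : (Finset.univ.filter (fun c => c ∈ H)).card = Nat.card H := by
    rw [Nat.card_eq_fintype_card, Fintype.card_subtype]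
  rw [h2]

section

variable {K : Type} [Field K] [NumberField K]

theorem prin {S : Finset ℕ} (P Q : ℕ → nonZeroDivisors (Ideal (𝓞 K)))
    (h : ∀ p ∈ S, Pair (P p : Ideal (𝓞 K)) (Q p) p) (v w : ℕ → ℕ)
    (hvw : ∏ p ∈ S, (ClassGroup.mk0 (P p)) ^ v p = ∏ p ∈ S, (ClassGroup.mk0 (P p)) ^ w p) :
    ((∏ p ∈ S, (P p : Ideal (𝓞 K)) ^ v p) * ∏ p ∈ S, (Q p : Ideal (𝓞 K)) ^ w p).IsPrincipal := by
  have h1 : ∀ p ∈ S, ClassGroup.mk0 (P p) * ClassGroup.mk0 (Q p) = 1 := by
    intro p hp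
    rw [← map_mul, ClassGroup.mk0_eq_one_iff]
    rw [Submonoid.coe_mul, (h p hp).mul]
    exact ⟨(p : 𝓞 K), rfl⟩
  have h2 : ClassGroup.mk0 ((∏ p ∈ S, (P p) ^ v p) * ∏ p ∈ S, (Q p) ^ w p) = 1 := by
    rw [map_mul, map_prod, map_prod]
    simp only [map_pow]
    rw [hvw, ← Finset.prod_mul_distrib]
    refine Finset.prod_eq_one fun p hp => ?_
    rw [← mul_pow, h1 p hp, one_pow]
  rw [ClassGroup.mk0_eq_one_iff] at h2
  simpa using h2

/-- the prime ideals above the split primes -/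
theorem exists_PQ {d : ℕ} (hd : 1 < d) (hs : Squarefree d) (h2 : finrank ℚ K = 2) (x : K)
    (hx : x ^ 2 = (d : K)) (Y : ℕ) : ∃ P Q : ℕ → nonZeroDivisors (Ideal (𝓞 K)),
      ∀ p ∈ spl d Y, Pair (P p : Ideal (𝓞 K)) (Q p) p := by
  classical
  have hint : IsIntegral ℤ x := by
    refine IsIntegral.of_pow (n := 2) two_pos ?_
    rw [hx]
    exact isIntegral_algebraMap (R := ℤ) (A := K) (x := (d : ℤ)) |> fun h => by simpa using h
  obtain ⟨s, hs'⟩ : ∃ s : 𝓞 K, (s : K) = x := ⟨⟨x, hint⟩, rfl⟩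
  have hsx : s ^ 2 = (d : 𝓞 K) := by
    apply RingOfIntegers.ext
    have : ((s ^ 2 : 𝓞 K) : K) = (s : K) ^ 2 := rfl
    rw [this, hs', hx]
    simp
  have key : ∀ p : ℕ, ∃ PQ : nonZeroDivisors (Ideal (𝓞 K)) × nonZeroDivisors (Ideal (𝓞 K)),
      p ∈ spl d Y → Pair (PQ.1 : Ideal (𝓞 K)) PQ.2 p := by
    intro p
    by_cases hp : p ∈ spl d Y
    · unfold spl at hp
      rw [Finset.mem_filter] at hp
      obtain ⟨-, hp1, hp2, hp3, hp4⟩ := hp
      obtain ⟨P, Q, h1, h3, h4, h5, h6, h7⟩ := exists_pair hd hs h2 s hsx hp1 hp2 hp3 hp4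
      have hPair : Pair P Q p := ⟨hp1, h1, h3, h4, h5, h6, h7⟩
      exact ⟨(⟨P, mem_nonZeroDivisors_of_ne_zero hPair.P0⟩,
        ⟨Q, mem_nonZeroDivisors_of_ne_zero hPair.symm.P0⟩), fun _ => hPair⟩
    · exact ⟨(1, 1), fun h => absurd h hp⟩
  choose PQ hPQ using key
  exact ⟨fun p => (PQ p).1, fun p => (PQ p).2, hPQ⟩

end

theorem dvd_NN {S : Finset ℕ} (hS : ∀ p ∈ S, p.Prime) {v w : ℕ → ℕ} {q : ℕ} (hq : q.Prime)
    (h : q ∣ NN S v w) : q ∈ S ∧ (v q ≠ w q) := by
  unfold NN at h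
  rw [Prime.dvd_finsetProd_iff hq.prime] at h
  obtain ⟨p, hp, h1⟩ := h
  have h2 : p ^ ((v p - w p) + (w p - v p)) ≠ 1 := by
    intro h3
    rw [h3] at h1
    exact hq.one_lt.ne' (Nat.dvd_one.1 h1)
  have h3 := (Nat.prime_dvd_prime_iff_eq hq (hS p hp)).1 (hq.dvd_of_dvd_pow h1)
  subst h3
  refine ⟨hp, fun h4 => h2 ?_⟩
  rw [h4]
  simp

theorem NN_pos {S : Finset ℕ} (hS : ∀ p ∈ S, p.Prime) (v w : ℕ → ℕ) : 0 < NN S v w :=
  Finset.prod_pos fun p hp => pow_pos (hS p hp).pos _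

theorem ns_of {S S' : Finset ℕ} (hS : ∀ p ∈ S, p.Prime) {v w : ℕ → ℕ}
    (h : ∀ q ∈ S, v q ≠ w q → q ∈ S') {N : ℤ}
    (hN : N = 4 * (NN S v w : ℤ) ∨ N = -4 * (NN S v w : ℤ)) : NS S' 4 N := by
  have h1 : Sm S' (NN S v w : ℤ) := by
    refine ⟨by exact_mod_cast NN_pos hS v w, fun q hq hd => ?_⟩
    have h2 : q ∣ NN S v w := by exact_mod_cast hd
    obtain ⟨h3, h4⟩ := dvd_NN hS hq h2
    exact h q h3 h4
  rcases hN with h2 | h2
  · exact ⟨4, _, h2, by norm_num, h1⟩
  · exact ⟨-4, _, h2, by norm_num, h1⟩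

theorem log_NN {S : Finset ℕ} (hS : ∀ p ∈ S, p.Prime) (v w : ℕ → ℕ) :
    Real.log (NN S v w) = ∑ p ∈ S, (((v p - w p) + (w p - v p) : ℕ) : ℝ) * Real.log p := by
  unfold NN
  push_cast
  rw [Real.log_prod (fun p hp => by
    have := (hS p hp).pos
    positivity)]
  refine Finset.sum_congr rfl fun p _ => ?_
  rw [Real.log_pow]
  push_cast
  rfl

theorem spl_prime {d Y : ℕ} : ∀ p ∈ spl d Y, p.Prime := by
  classical
  intro p hp
  unfold spl at hp
  exact (Finset.mem_filter.1 hp).2.1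

theorem spl_le {d Y : ℕ} : ∀ p ∈ spl d Y, p ≤ Y := by
  classical
  intro p hp
  unfold spl at hp
  have := Finset.mem_range.1 (Finset.mem_filter.1 hp).1
  omega

theorem PK : StmtPK := by
  classical
  intro d Y k B hd hs hk hB hkB hyp
  have h2 := finrank_QS hd hs
  obtain ⟨x, hxv⟩ : ∃ x : QS d, x = ⟨√(d : ℝ), IntermediateField.mem_adjoin_simple_self ℚ _⟩ :=
    ⟨_, rfl⟩
  have hx : x ^ 2 = (d : QS d) := by
    rw [hxv]
    apply Subtype.ext
    simp [Real.sq_sqrt (Nat.cast_nonneg d)]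
  obtain ⟨σ, hσdef⟩ : ∃ σ : QS d →+* ℝ, σ = algebraMap (QS d) ℝ := ⟨_, rfl⟩
  have hσ : σ x = √(d : ℝ) := by
    rw [hσdef, hxv]
    rfl
  obtain ⟨P, Q, hPQ⟩ := exists_PQ hd hs h2 x hx Y
  obtain ⟨I, hI⟩ : ∃ I, I = spl d Y := ⟨_, rfl⟩
  rw [← hI] at hPQ hyp ⊢
  have hIp : ∀ p ∈ I, p.Prime := by rw [hI]; exact spl_prime
  have hIY : ∀ p ∈ I, p ≤ Y := by rw [hI]; exact spl_le
  have hlog : ∀ p ∈ I, Real.log p ≤ Real.log Y := fun p hp =>
    Real.log_le_log (by exact_mod_cast (hIp p hp).pos) (by exact_mod_cast hIY p hp)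
  have hlog0 : ∀ p ∈ I, 0 ≤ Real.log p := fun p hp =>
    Real.log_nonneg (by exact_mod_cast (hIp p hp).one_lt.le)
  -- the exponent vectors
  let v : ℕ → ℕ → ℕ := fun p q => if q = p then k else 0
  have hfib : ∀ c : ClassGroup (𝓞 (QS d)),
      ((I.filter fun p => (ClassGroup.mk0 (P p)) ^ k = c).card : ℝ) * B ≤
        2 * Units.regulator (QS d) := by
    intro c
    have hcl : ∀ i ∈ I, ∏ p ∈ I, (ClassGroup.mk0 (P p)) ^ v i p = (ClassGroup.mk0 (P i)) ^ k := by
      intro i hi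
      rw [Finset.prod_eq_single i]
      · simp [v]
      · intro q _ hq
        simp [v, hq]
      · intro h
        exact absurd hi h
    refine pack hd hs h2 x hx σ hσ _ v I (fun p => (P p : Ideal (𝓞 (QS d))))
      (fun p => (Q p : Ideal (𝓞 (QS d)))) hPQ ?_ ?_ B hB ?_ ?_
    · intro i hi j _ hij
      refine ⟨i, (Finset.mem_filter.1 hi).1, ?_⟩
      simp only [v, if_true, if_neg hij]
      omega
    · intro i hi j hj
      rw [Finset.mem_filter] at hi hj
      apply prin P Q hPQ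
      rw [hcl i hi.1, hcl j hj.1, hi.2, hj.2]
    · intro i hi j hj X Z hX hZ hXZ
      rw [Finset.mem_filter] at hi hj
      refine hyp i hi.1 j hj.1 X Z hX hZ (ns_of hIp ?_ hXZ)
      intro q _ hq
      rw [Finset.mem_insert, Finset.mem_singleton]
      by_contra hcon
      push Not at hcon
      apply hq
      simp [v, hcon.1, hcon.2]
    · intro i hi j hj
      rw [Finset.mem_filter] at hi hj
      rw [log_NN hIp]
      have h3 : ∀ p ∈ I, (((v i p - v j p) + (v j p - v i p) : ℕ) : ℝ) * Real.log p ≤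
          (if p = i then k * Real.log Y else 0) + (if p = j then k * Real.log Y else 0) := by
        intro p hp
        have h4 := hlog p hp
        have h5 := hlog0 p hp
        have h6 : (((v i p - v j p) + (v j p - v i p) : ℕ) : ℝ) ≤
            (if p = i then (k : ℝ) else 0) + (if p = j then (k : ℝ) else 0) := by
          simp only [v]
          split_ifs <;> push_cast <;> simp
        have h7 : (if p = i then k * Real.log Y else 0) + (if p = j then k * Real.log Y else 0) =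
            ((if p = i then (k : ℝ) else 0) + (if p = j then (k : ℝ) else 0)) * Real.log Y := by
          split_ifs <;> ring
        rw [h7]
        exact mul_le_mul h6 h4 h5 ((Nat.cast_nonneg _).trans h6)
      refine (Finset.sum_le_sum h3).trans ?_
      rw [Finset.sum_add_distrib, Finset.sum_ite_eq' I i, Finset.sum_ite_eq' I j, if_pos hi.1,
        if_pos hj.1]
      linarith
  have h3 := count (powMonoidHom k : ClassGroup (𝓞 (QS d)) →* ClassGroup (𝓞 (QS d))).range I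
    (fun p => (ClassGroup.mk0 (P p)) ^ k) (fun p _ => ⟨ClassGroup.mk0 (P p), rfl⟩) B _ hfib
  have h4 : Nat.card {c : ClassGroup (𝓞 (QS d)) // c ^ k = 1} *
      Nat.card (powMonoidHom k : ClassGroup (𝓞 (QS d)) →* ClassGroup (𝓞 (QS d))).range =
        hnum d := by
    have h5 := Subgroup.card_mul_index
      (powMonoidHom k : ClassGroup (𝓞 (QS d)) →* ClassGroup (𝓞 (QS d))).ker
    rw [Subgroup.index_ker] at h5
    exact h5
  have h5 : (Nat.card {c : ClassGroup (𝓞 (QS d)) // c ^ k = 1} : ℝ) *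
      Nat.card (powMonoidHom k : ClassGroup (𝓞 (QS d)) →* ClassGroup (𝓞 (QS d))).range =
        hnum d := by exact_mod_cast h4
  have h6 : (0 : ℝ) ≤ Nat.card {c : ClassGroup (𝓞 (QS d)) // c ^ k = 1} := Nat.cast_nonneg _
  calc (I.card : ℝ) * (Nat.card {c : ClassGroup (𝓞 (QS d)) // c ^ k = 1} : ℝ) * B
      = (Nat.card {c : ClassGroup (𝓞 (QS d)) // c ^ k = 1} : ℝ) * (I.card * B) := by ring
    _ ≤ (Nat.card {c : ClassGroup (𝓞 (QS d)) // c ^ k = 1} : ℝ) *
        (Nat.card (powMonoidHom k : ClassGroup (𝓞 (QS d)) →* ClassGroup (𝓞 (QS d))).range *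
          (2 * Units.regulator (QS d))) := mul_le_mul_of_nonneg_left h3 h6
    _ = 2 * hnum d * Units.regulator (QS d) := by rw [← h5]; ring

theorem SC : StmtSC := by
  classical
  intro d Y S B hd hs hB hS hyp
  have h2 := finrank_QS hd hs
  obtain ⟨x, hxv⟩ : ∃ x : QS d, x = ⟨√(d : ℝ), IntermediateField.mem_adjoin_simple_self ℚ _⟩ :=
    ⟨_, rfl⟩
  have hx : x ^ 2 = (d : QS d) := by
    rw [hxv]
    apply Subtype.ext
    simp [Real.sq_sqrt (Nat.cast_nonneg d)]
  obtain ⟨σ, hσdef⟩ : ∃ σ : QS d →+* ℝ, σ = algebraMap (QS d) ℝ := ⟨_, rfl⟩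
  have hσ : σ x = √(d : ℝ) := by
    rw [hσdef, hxv]
    rfl
  obtain ⟨P, Q, hPQ'⟩ := exists_PQ hd hs h2 x hx Y
  have hPQ : ∀ p ∈ S, Pair (P p : Ideal (𝓞 (QS d))) (Q p) p := fun p hp => hPQ' p (hS hp)
  have hIp : ∀ p ∈ S, p.Prime := fun p hp => spl_prime p (hS hp)
  have hlog0 : ∀ p ∈ S, 0 < Real.log p := fun p hp =>
    Real.log_pos (by exact_mod_cast (hIp p hp).one_lt)
  obtain ⟨κ, hκ⟩ : ∃ κ : ℕ → ℕ, κ = fun p : ℕ => ⌊B / (2 * (S.card : ℝ) * Real.log p)⌋₊ := ⟨_, rfl⟩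
  let v : ((p : ℕ) → p ∈ S → ℕ) → ℕ → ℕ := fun f p => if h : p ∈ S then f p h else 0
  obtain ⟨T, hT⟩ : ∃ T, T = S.pi fun p => Finset.range (κ p + 1) := ⟨_, rfl⟩
  have hTm : ∀ f ∈ T, ∀ p ∈ S, v f p ≤ κ p := by
    intro f hf p hp
    rw [hT, Finset.mem_pi] at hf
    have := Finset.mem_range.1 (hf p hp)
    simp only [v, dif_pos hp]
    omega
  have hinj : ∀ f g : (p : ℕ) → p ∈ S → ℕ, f ≠ g → ∃ p ∈ S, v f p ≠ v g p := by
    intro f g hfg
    by_contra hcon
    push Not at hcon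
    apply hfg
    funext p hp
    have := hcon p hp
    simpa only [v, dif_pos hp] using this
  have hfib : ∀ c : ClassGroup (𝓞 (QS d)),
      ((T.filter fun f => ∏ p ∈ S, (ClassGroup.mk0 (P p)) ^ v f p = c).card : ℝ) * B ≤
        2 * Units.regulator (QS d) := by
    intro c
    refine pack hd hs h2 x hx σ hσ _ v S (fun p => (P p : Ideal (𝓞 (QS d))))
      (fun p => (Q p : Ideal (𝓞 (QS d)))) hPQ ?_ ?_ B hB ?_ ?_
    · intro i _ j _ hij
      exact hinj i j hij
    · intro i hi j hj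
      rw [Finset.mem_filter] at hi hj
      apply prin P Q hPQ
      rw [hi.2, hj.2]
    · intro i hi j hj X Z hX hZ hXZ
      exact hyp X Z hX hZ (ns_of hIp (fun q hq _ => hq) hXZ)
    · intro i hi j hj
      rw [Finset.mem_filter] at hi hj
      rw [log_NN hIp]
      have h3 : ∀ p ∈ S, (((v i p - v j p) + (v j p - v i p) : ℕ) : ℝ) * Real.log p ≤
          B / S.card := by
        intro p hp
        have h4 := hlog0 p hp
        have hs0 : (0 : ℝ) < S.card := by exact_mod_cast Finset.card_pos.2 ⟨p, hp⟩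
        have h5 : (v i p - v j p) + (v j p - v i p) ≤ κ p := by
          have := hTm i hi.1 p hp
          have := hTm j hj.1 p hp
          omega
        have h6 : (((v i p - v j p) + (v j p - v i p) : ℕ) : ℝ) ≤
            B / (2 * (S.card : ℝ) * Real.log p) := by
          refine (Nat.cast_le.2 h5).trans ?_
          rw [hκ]
          exact Nat.floor_le (by positivity)
        calc (((v i p - v j p) + (v j p - v i p) : ℕ) : ℝ) * Real.log p
            ≤ B / (2 * (S.card : ℝ) * Real.log p) * Real.log p :=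
              mul_le_mul_of_nonneg_right h6 h4.le
          _ = B / S.card / 2 := by field_simp
          _ ≤ B / S.card := half_le_self (by positivity)
      refine (Finset.sum_le_sum h3).trans ?_
      rw [Finset.sum_const, nsmul_eq_mul]
      rcases S.eq_empty_or_nonempty with hSe | hSn
      · subst hSe
        simpa using hB.le
      · have : (S.card : ℝ) ≠ 0 := by exact_mod_cast (Finset.card_pos.2 hSn).ne'
        rw [mul_div_cancel₀ _ this]
  have h3 := count (GS d S) T (fun f => ∏ p ∈ S, (ClassGroup.mk0 (P p)) ^ v f p) (by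
    intro f _
    refine Subgroup.prod_mem _ fun p hp => Subgroup.pow_mem _ (Subgroup.subset_closure ?_) _
    exact ⟨P p, (hPQ p hp).P1, ⟨p, hp, (hPQ p hp).memP⟩, rfl⟩) B _ hfib
  have hTc : (T.card : ℝ) = ∏ p ∈ S, ((κ p : ℝ) + 1) := by
    rw [hT, Finset.card_pi]
    push_cast
    simp
  have h4 : ∏ p ∈ S, (B / (2 * (S.card : ℝ) * Real.log p)) ≤ T.card := by
    rw [hTc]
    refine Finset.prod_le_prod (fun p hp => ?_) fun p _ => ?_
    · have := hlog0 p hp
      positivity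
    · rw [hκ]
      exact (Nat.lt_floor_add_one _).le
  have h5 : ((GS d S).index : ℝ) * Nat.card (GS d S) = hnum d := by
    have := Subgroup.index_mul_card (GS d S)
    exact_mod_cast this
  have h6 : (0 : ℝ) ≤ (GS d S).index := Nat.cast_nonneg _
  calc ((GS d S).index : ℝ) * B * ∏ p ∈ S, (B / (2 * (S.card : ℝ) * Real.log p))
      ≤ ((GS d S).index : ℝ) * B * T.card := mul_le_mul_of_nonneg_left h4 (by positivity)
    _ = ((GS d S).index : ℝ) * (T.card * B) := by ring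
    _ ≤ ((GS d S).index : ℝ) * (Nat.card (GS d S) * (2 * Units.regulator (QS d))) :=
        mul_le_mul_of_nonneg_left h3 h6
    _ = 2 * hnum d * Units.regulator (QS d) := by rw [← h5]; ring

end Pool.Agent.H14.AD
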